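import Pool.Agent.N237.MD.Bog
import Pool.Agent.N237.MD.Lower
import Pool.Agent.N424.CB.Corr
import Pool.Agent.N767.CB.SING
import Pool.Agent.N273.CB.Bessel
import Pool.Agent.N645.CB.State
import Pool.Agent.Y842.PH.Tri
import Pool.Agent.Y304.U.Avc
import Pool.Agent.Y304.U.Pw
import Pool.Agent.Y842.EL.One

/-!
# Möbius disjointness for Bogoliubov automorphisms of the CAR algebra (helpers 237, 273, 424, 645, 767)
-/

set_option autoImplicit false

open Filter Topology Finset MeasureTheory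
open scoped ComplexOrder

namespace Pool.Agent.Results.MP_7a8f48_an.Bogoliubov

universe u v

open Classical in
/-- `E` has logarithmic density zero -/
def LogDensityZero (E : Set ℕ) : Prop := Tendsto
  (fun X : ℕ => (∑ n ∈ Icc 1 X, if n ∈ E then (1 : ℝ) / n else 0) / Real.log X) atTop (𝓝 0)

/-- the Möbius function -/
def mu (n : ℕ) : ℤ := ArithmeticFunction.moebius n

/-- the Liouville function -/
def lam (n : ℕ) : ℤ := (-1) ^ ArithmeticFunction.cardFactors n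

/-! ### the conclusion -/

section concl

variable {X : Type v} [NormedAddCommGroup X] [NormedSpace ℂ X]

/-- the sum of `h m e(mθ) y m` over the `m` in `S`, where `e(t) = exp (2 π i t)` -/
noncomputable def twistedSum (h : ℕ → ℤ) (θ : ℝ) (S : Finset ℕ) (y : ℕ → X) : X :=
  ∑ m ∈ S, ((h m : ℂ) * Complex.exp (2 * Real.pi * Complex.I * m * θ)) • y m

/-- The sequence `y` is disjoint from `h`, uniformly in the twist: (1) for the long averages up to `N`, `N` outside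
`E`, and (2) in logarithmic mean, for all `N`. -/
def DisjointOutside (E : Set ℕ) (h : ℕ → ℤ) (y : ℕ → X) : Prop :=
  ∀ ε : ℝ, 0 < ε →
    (∃ N0 : ℕ, ∀ N ≥ N0, N ∉ E → ∀ θ : ℝ, ‖twistedSum h θ (Icc 1 N) y‖ ≤ ε * N) ∧
    ∃ N0 : ℕ, ∀ N ≥ N0, ∀ θ : ℝ,
      ‖twistedSum h θ (Icc 1 N) (fun m => (1 / (m : ℂ)) • y m)‖ ≤ ε * Real.log N

/-- the conclusion for an orbit `y`: it is disjoint in norm from the Möbius and the Liouville function, so that for
all bounded functionals `ρ` (for example states)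
`(1/N) ∑_{n ≤ N} μ(n) ρ(y n) → 0` as `N → ∞` outside `E` and `(1/log N) ∑_{n ≤ N} μ(n) ρ(y n) / n → 0`. -/
def Conclusion (E : Set ℕ) (y : ℕ → X) : Prop :=
  DisjointOutside E mu y ∧ DisjointOutside E lam y ∧
  ∀ ρ : X →L[ℂ] ℂ,
    Tendsto (fun N : ℕ => (1 / (N : ℂ)) * ∑ n ∈ Icc 1 N, (mu n : ℂ) * ρ (y n)) (atTop ⊓ 𝓟 Eᶜ) (𝓝 0) ∧
    Tendsto (fun N : ℕ => (1 / (Real.log N : ℂ)) * ∑ n ∈ Icc 1 N, (mu n : ℂ) / n * ρ (y n)) atTop (𝓝 0)

end concl

/-! ### the CAR algebra and Bogoliubov automorphisms -/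

section car

variable {H : Type} [NormedAddCommGroup H] [InnerProductSpace ℂ H] {A : Type u} [CStarAlgebra A]

/-- The canonical anticommutation relations: the creation operators `c ξ` depend linearly on `ξ`, they anticommute, and
`c(ξ)* c(η) + c(η) c(ξ)* = ⟨ξ, η⟩ 1`. -/
structure CAR (c : H →ₗ[ℂ] A) : Prop where
  anticommute : ∀ ξ η, c ξ * c η + c η * c ξ = 0
  relation : ∀ ξ η, star (c ξ) * c η + c η * star (c ξ) = (inner ℂ ξ η : ℂ) • (1 : A)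

/-- The spectral measure of the vector `ξ` with respect to the unitary operator `U` is singular: there is a finite
measure on the circle `ℝ/ℤ`, singular to Lebesgue measure, with Fourier coefficients `⟨ξ, Uⁿ ξ⟩`. -/
def SingularVector (U : H ≃ₗᵢ[ℂ] H) (ξ : H) : Prop :=
  ∃ σ : Measure (AddCircle (1 : ℝ)), IsFiniteMeasure σ ∧
    (∀ n : ℤ, ∫ t, (fourier n t : ℂ) ∂σ = inner ℂ ξ ((U ^ n) ξ)) ∧
    σ.MutuallySingular (volume : Measure (AddCircle (1 : ℝ)))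

/-- `a` is a creation or annihilation operator of the vector `ξ` -/
def IsField (c : H →ₗ[ℂ] A) (ξ : H) (a : A) : Prop := a = c ξ ∨ a = star (c ξ)

/-- the observables of degree at most two such that in each product of two fields one of the two vectors has singular
spectral measure -/
def QuadraticSingular (c : H →ₗ[ℂ] A) (U : H ≃ₗᵢ[ℂ] H) : Set A :=
  {x | x = 1 ∨ (∃ ξ, IsField c ξ x) ∨
    ∃ ξ ζ a b, (SingularVector U ξ ∨ SingularVector U ζ) ∧ IsField c ξ a ∧ IsField c ζ b ∧ x = a * b}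

/-- all observables of degree at most two -/
def Quadratic (c : H →ₗ[ℂ] A) : Set A :=
  {x | x = 1 ∨ (∃ ξ, IsField c ξ x) ∨ ∃ ξ ζ a b, IsField c ξ a ∧ IsField c ζ b ∧ x = a * b}

/-- `ρ` is a state -/
def State (ρ : A →L[ℂ] ℂ) : Prop := (∀ x : A, 0 ≤ ρ (star x * x)) ∧ ρ 1 = 1

/-- For some state `ρ` the sequence `ρ(y n)` correlates with `h`: the averages are at least `κ > 0` at all large scales
outside `E`, and the logarithmic averages are at least `κ` at all large scales. -/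
def Correlates (E : Set ℕ) (h : ℕ → ℤ) (y : ℕ → A) : Prop :=
  ∃ (κ : ℝ) (ρ : A →L[ℂ] ℂ), 0 < κ ∧ State ρ ∧
    (∃ N0 : ℕ, ∀ N ≥ N0, N ∉ E → κ ≤ ((1 / (N : ℂ)) * ∑ n ∈ Icc 1 N, (h n : ℂ) * ρ (y n)).re) ∧
    ∃ N0 : ℕ, ∀ N ≥ N0, κ ≤ ((1 / (Real.log N : ℂ)) * ∑ n ∈ Icc 1 N, (h n : ℂ) / n * ρ (y n)).re

/-- the orbit of the element `x` -/
def orbit (α : A →⋆ₐ[ℂ] A) (x : A) (n : ℕ) : A := (α^[n]) x

/-- disjointness for the observables of degree at most two with one singular vector -/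
def PartA (E : Set ℕ) (c : H →ₗ[ℂ] A) (U : H ≃ₗᵢ[ℂ] H) (α : A →⋆ₐ[ℂ] A) : Prop :=
  ∀ x ∈ closure (Submodule.span ℂ (QuadraticSingular c U) : Set A), Conclusion E (orbit α x)

/-- correlation for the vectors whose spectral measure is not singular -/
def PartB (E : Set ℕ) (c : H →ₗ[ℂ] A) (U : H ≃ₗᵢ[ℂ] H) (α : A →⋆ₐ[ℂ] A) : Prop :=
  ∀ ξ, ¬ SingularVector U ξ →
    Correlates E mu (orbit α (c ξ * star (c ξ))) ∧ Correlates E lam (orbit α (c ξ * star (c ξ)))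

/-- all observables of degree at most two are disjoint from `μ` and `λ` -/
def AllDisjoint (E : Set ℕ) (c : H →ₗ[ℂ] A) (α : A →⋆ₐ[ℂ] A) : Prop :=
  ∀ x ∈ closure (Submodule.span ℂ (Quadratic c) : Set A), Conclusion E (orbit α x)

/-- the logarithmic means of `μ(n) ρ(αⁿ(c(ξ) c(ξ)*))` tend to zero for all vectors `ξ` and all states `ρ` -/
def WeaklyDisjoint (c : H →ₗ[ℂ] A) (α : A →⋆ₐ[ℂ] A) : Prop :=
  ∀ ξ, ∀ ρ : A →L[ℂ] ℂ, State ρ → Tendsto (fun N : ℕ => (1 / (Real.log N : ℂ)) *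
    ∑ n ∈ Icc 1 N, (mu n : ℂ) / n * ρ (orbit α (c ξ * star (c ξ)) n)) atTop (𝓝 0)

end car

/-- the theorem for one set `E` of exceptional scales -/
def Main (E : Set ℕ) : Prop :=
  ∀ (H : Type) [NormedAddCommGroup H] [InnerProductSpace ℂ H] [CompleteSpace H] (A : Type u) [CStarAlgebra A]
    [Nontrivial A] (c : H →ₗ[ℂ] A) (U : H ≃ₗᵢ[ℂ] H) (α : A →⋆ₐ[ℂ] A), CAR c → (∀ ξ, α (c ξ) = c (U ξ)) →
    PartA E c U α ∧ PartB E c U α ∧
    [∀ ξ, SingularVector U ξ, AllDisjoint E c α, WeaklyDisjoint c α].TFAE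

open Pool.Agent.R296.SM Pool.Agent.N237.MD

theorem disj_of {X : Type v} [NormedAddCommGroup X] [NormedSpace ℂ X] {E : Set ℕ} (hE : LDZ E) {f : ℕ → ℤ}
    (hf : ∀ n, |f n| ≤ 1) {y : ℕ → X} {M : ℝ} (hM : ∀ n, ‖y n‖ ≤ M)
    (hy : ∀ ε : ℝ, 0 < ε → ∃ N₀ : ℕ, ∀ N : ℕ, N₀ ≤ N → N ∉ E → ∀ θ : UnitAddCircle,
      ‖∑ m ∈ Icc 1 N, tws f θ m • y m‖ ≤ ε * N) : DisjointOutside E f y := by
  have hlong : ∀ ε : ℝ, 0 < ε → ∃ N0 : ℕ, ∀ N ≥ N0, N ∉ E → ∀ θ : ℝ,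
      ‖twistedSum f θ (Icc 1 N) y‖ ≤ ε * N := by
    intro ε hε
    obtain ⟨N₀, h1⟩ := hy ε hε
    refine ⟨N₀, fun N hN hNE θ => ?_⟩
    refine le_trans (le_of_eq ?_) (h1 N hN hNE (θ : UnitAddCircle))
    congr 1
    unfold twistedSum
    refine sum_congr rfl fun m _ => ?_
    rw [exp_fourier]
    rfl
  intro ε hε
  refine ⟨hlong ε hε, ?_⟩
  obtain ⟨N₀, h3⟩ := logmean hE (M := M)
    (𝓕 := {a : ℕ → X | ∃ θ : ℝ, a = fun m => ((f m : ℂ) * Complex.exp (2 * Real.pi * Complex.I * m * θ)) • y m})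
    (by
      rintro _ ⟨θ, rfl⟩ n
      rw [norm_smul, exp_fourier]
      calc _ ≤ 1 * M := mul_le_mul (norm_tws hf (θ : UnitAddCircle) n) (hM n) (norm_nonneg _) zero_le_one
        _ = M := one_mul _)
    (by
      intro ε hε
      obtain ⟨N₀, h4⟩ := hlong ε hε
      refine ⟨N₀, ?_⟩
      rintro N hN hNE _ ⟨θ, rfl⟩
      exact h4 N hN hNE θ) ε hε
  refine ⟨N₀, fun N hN θ => ?_⟩
  refine le_trans (le_of_eq ?_) (h3 N hN _ ⟨θ, rfl⟩)
  unfold twistedSum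
  congr 1
  exact sum_congr rfl fun m _ => smul_comm _ _ _

theorem concl_of {E : Set ℕ} {X : Type v} [NormedAddCommGroup X] [NormedSpace ℂ X] {y : ℕ → X}
    (h1 : DisjointOutside E mu y) (h2 : DisjointOutside E lam y) : Conclusion E y := by
  refine ⟨h1, h2, fun ρ => ⟨?_, ?_⟩⟩
  · rw [Metric.tendsto_nhds]
    intro ε hε
    obtain ⟨N₀, h3⟩ := (h1 (ε / (2 * (‖ρ‖ + 1))) (by positivity)).1
    rw [eventually_inf_principal]
    filter_upwards [eventually_ge_atTop (max N₀ 1)] with N hN hNE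
    have h4 := h3 N (le_trans (le_max_left _ _) hN) hNE 0
    unfold twistedSum at h4
    have hN1 : (1 : ℝ) ≤ N := by exact_mod_cast le_trans (le_max_right _ _) hN
    simp only [Complex.ofReal_zero, mul_zero, Complex.exp_zero, mul_one] at h4
    rw [dist_zero_right]
    have e : ∑ n ∈ Icc 1 N, (mu n : ℂ) * ρ (y n) = ρ (∑ n ∈ Icc 1 N, (mu n : ℂ) • y n) := by
      rw [map_sum]
      exact Finset.sum_congr rfl fun n _ => by rw [map_smul, smul_eq_mul]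
    rw [e, norm_mul, norm_div, norm_one, Complex.norm_natCast]
    calc 1 / (N : ℝ) * ‖ρ (∑ n ∈ Icc 1 N, (mu n : ℂ) • y n)‖
        ≤ 1 / (N : ℝ) * (‖ρ‖ * (ε / (2 * (‖ρ‖ + 1)) * N)) := by
          gcongr
          exact (ρ.le_opNorm _).trans (mul_le_mul_of_nonneg_left h4 (norm_nonneg _))
      _ = ε / 2 * (‖ρ‖ / (‖ρ‖ + 1)) := by field_simp
      _ ≤ ε / 2 * 1 := by
          gcongr
          rw [div_le_one (by positivity)]
          linarith
      _ < ε := by linarith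
  · rw [Metric.tendsto_atTop]
    intro ε hε
    obtain ⟨N₀, h3⟩ := (h1 (ε / (2 * (‖ρ‖ + 1))) (by positivity)).2
    refine ⟨max N₀ 2, fun N hN => ?_⟩
    have h4 := h3 N (le_trans (le_max_left _ _) hN) 0
    unfold twistedSum at h4
    have hlog : 0 < Real.log N := Real.log_pos (by exact_mod_cast (by omega : 1 < N))
    simp only [Complex.ofReal_zero, mul_zero, Complex.exp_zero, mul_one] at h4
    rw [dist_zero_right]
    have e : ∑ n ∈ Icc 1 N, (mu n : ℂ) / n * ρ (y n) =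
        ρ (∑ n ∈ Icc 1 N, (mu n : ℂ) • (1 / (n : ℂ)) • y n) := by
      rw [map_sum]
      exact Finset.sum_congr rfl fun n _ => by rw [map_smul, map_smul, smul_eq_mul, smul_eq_mul]; ring
    rw [e, norm_mul, norm_div, norm_one, Complex.norm_real, Real.norm_eq_abs, abs_of_pos hlog]
    calc 1 / Real.log N * ‖ρ (∑ n ∈ Icc 1 N, (mu n : ℂ) • (1 / (n : ℂ)) • y n)‖
        ≤ 1 / Real.log N * (‖ρ‖ * (ε / (2 * (‖ρ‖ + 1)) * Real.log N)) := by
          gcongr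
          exact (ρ.le_opNorm _).trans (mul_le_mul_of_nonneg_left h4 (norm_nonneg _))
      _ = ε / 2 * (‖ρ‖ / (‖ρ‖ + 1)) := by field_simp
      _ ≤ ε / 2 * 1 := by
          gcongr
          rw [div_le_one (by positivity)]
          linarith
      _ < ε := by linarith

theorem wt_of {E F : Set ℕ} {f : ℕ → ℤ} (h : ∀ h : ℕ, 1 ≤ h → ∀ ε : ℝ, 0 < ε → ∃ N₀ : ℕ, ∀ N : ℕ, N₀ ≤ N →
    N ∉ E → ∀ α : ℝ, ‖Pool.Agent.Y842.PH.Cr f h N α‖ ≤ ε * N) (hEF : E ⊆ F) : Wt F f := by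
  intro k hk ε hε
  obtain ⟨N₀, h1⟩ := h k hk ε hε
  refine ⟨N₀, fun N hN hNE l hl => ?_⟩
  obtain ⟨t, ht⟩ := (Complex.norm_eq_one_iff l).1 hl
  have h2 := h1 N hN (fun h3 => hNE (hEF h3)) (t / (2 * Real.pi))
  refine le_trans (le_of_eq ?_) h2
  congr 1
  unfold Pool.Agent.Y842.PH.Cr
  refine sum_congr rfl fun n _ => ?_
  congr 1
  unfold Pool.Agent.Helper602.MK.ee
  rw [← ht, ← Complex.exp_nat_mul]
  congr 1
  push_cast
  have : (Real.pi : ℂ) ≠ 0 := by exact_mod_cast Real.pi_ne_zero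
  field_simp

/-- a unital *-endomorphism as a linear contraction -/
noncomputable def toL1 {A : Type u} [CStarAlgebra A] (α : A →⋆ₐ[ℂ] A) : A →L[ℂ] A :=
  LinearMap.mkContinuous ({ toFun := α, map_add' := map_add α, map_smul' := map_smul α } : A →ₗ[ℂ] A) 1
    (fun a => by rw [one_mul]; exact NonUnitalStarAlgHom.norm_apply_le α a)

theorem toL1_le {A : Type u} [CStarAlgebra A] (α : A →⋆ₐ[ℂ] A) : ‖toL1 α‖ ≤ 1 :=
  LinearMap.mkContinuous_norm_le _ zero_le_one _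

theorem toL1_coe {A : Type u} [CStarAlgebra A] (α : A →⋆ₐ[ℂ] A) : (⇑(toL1 α) : A → A) = ⇑α := rfl

theorem pow_iter {A : Type u} [CStarAlgebra A] (α : A →⋆ₐ[ℂ] A) (m : ℕ) (x : A) : (α ^ m) x = (⇑α)^[m] x := by
  induction m with
  | zero => rfl
  | succ m ih =>
    rw [Function.iterate_succ_apply', ← ih, pow_succ']
    rfl


section gd

variable {A : Type u} [CStarAlgebra A] {α : A →⋆ₐ[ℂ] A} {E : Set ℕ} {f : ℕ → ℤ}

theorem slow_gd (hf : ∀ n, |f n| ≤ 1) (hw : Wt E f) {x : A} (h1 : SlowV (⇑α) x) : Gd α E f x := by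
  have hfun : (⇑(toL1 α) : A → A) = ⇑α := toL1_coe α
  rw [← hfun] at h1
  have h2 : GdT (⇑(toL1 α)) E f x := slowV_gd hf hw (toL1_le α) h1
  intro ε hε
  obtain ⟨N₀, h3⟩ := h2 ε hε
  refine ⟨N₀, fun N hN hNE θ => le_trans (le_of_eq ?_) (h3 N hN hNE θ)⟩
  congr 1
  refine sum_congr rfl fun m _ => ?_
  rw [hfun, pow_iter]

theorem fixed_slow {X : Type v} [NormedAddCommGroup X] [NormedSpace ℂ X] {T : X → X} {x : X} (hx : T x = x) :
    SlowV T x := by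
  intro η hη
  have hit : ∀ i : ℕ, (T^[i]) x = x := fun i => by
    induction i with
    | zero => rfl
    | succ i ih => rw [Function.iterate_succ_apply', ih, hx]
  obtain ⟨L, hL⟩ := exists_nat_ge (‖x‖ ^ 2 / η ^ 2 + 1)
  have h0 : 0 ≤ ‖x‖ ^ 2 / η ^ 2 := by positivity
  have hL1 : 1 ≤ L := by
    have : (1 : ℝ) ≤ L := by linarith
    exact_mod_cast this
  have hL2 : ‖x‖ ^ 2 ≤ η ^ 2 * L := by
    have : ‖x‖ ^ 2 / η ^ 2 ≤ L := by linarith
    rwa [div_le_iff₀ (by positivity), mul_comm] at this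
  refine ⟨L, hL1, ℂ, inferInstance, inferInstance, fun _ => (‖x‖ : ℂ), ?_, fun v _ => ?_⟩
  · rw [sum_const, card_range, nsmul_eq_mul]
    have h3 : (0 : ℝ) ≤ L := Nat.cast_nonneg _
    have h4 : ‖((‖x‖ : ℝ) : ℂ)‖ = ‖x‖ := by rw [Complex.norm_real, norm_norm]
    rw [h4]
    calc (L : ℝ) * ‖x‖ ^ 2 ≤ L * (η ^ 2 * L) := mul_le_mul_of_nonneg_left hL2 h3
      _ = (η * L) ^ 2 := by ring
  · have h2 : 0 ≤ η * L := by positivity
    simp only [hit]
    rw [← sum_smul, norm_smul]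
    have h3 : ‖∑ h ∈ range L, v h • (‖x‖ : ℂ)‖ = ‖∑ h ∈ range L, v h‖ * ‖x‖ := by
      rw [← sum_smul, norm_smul, Complex.norm_real, norm_norm]
    rw [h3]
    linarith

theorem mean_small (hf : ∀ n, |f n| ≤ 1) (hw : Wt E f) (ε : ℝ) (hε : 0 < ε) :
    ∃ N₀ : ℕ, ∀ N : ℕ, N₀ ≤ N → N ∉ E → |∑ n ∈ Icc 1 N, (f n : ℝ)| ≤ ε * N := by
  have h1 : SlowV (⇑(ContinuousLinearMap.id ℂ ℂ)) (1 : ℂ) := fixed_slow rfl
  obtain ⟨N₀, h2⟩ := slowV_gd hf hw ContinuousLinearMap.norm_id_le h1 ε hε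
  refine ⟨N₀, fun N hN hNE => le_trans (le_of_eq ?_) (h2 N hN hNE 0)⟩
  have h3 : ∑ m ∈ Icc 1 N, tws f (0 : UnitAddCircle) m • ((ContinuousLinearMap.id ℂ ℂ)^[m]) (1 : ℂ) =
      ((∑ n ∈ Icc 1 N, (f n : ℝ) : ℝ) : ℂ) := by
    push_cast
    refine sum_congr rfl fun m _ => ?_
    have h4 : ((id : ℂ → ℂ)^[m]) 1 = 1 := by rw [Function.iterate_id]; rfl
    show tws f (0 : UnitAddCircle) m • ((id : ℂ → ℂ)^[m]) 1 = _
    rw [h4, smul_eq_mul, mul_one]
    simp [tws]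
  rw [h3, Complex.norm_real, Real.norm_eq_abs]

theorem corr_small (hf : ∀ n, |f n| ≤ 1) (hw : Wt E f) (k : ℕ) (hk : 0 < k) (ε : ℝ) (hε : 0 < ε) :
    ∃ N₀ : ℕ, ∀ N : ℕ, N₀ ≤ N → N ∉ E → |∑ n ∈ Icc 1 N, (f n : ℝ) * f (n + k)| ≤ ε * N := by
  obtain ⟨N₀, h1⟩ := corr hf hw 0 k (by omega) ε hε
  refine ⟨N₀, fun N hN hNE => le_trans (le_of_eq ?_) (h1 N hN hNE)⟩
  have h2 : ∑ n ∈ Icc 1 N, ((f (n + 0) : ℂ) * f (n + k)) =
      ((∑ n ∈ Icc 1 N, (f n : ℝ) * f (n + k) : ℝ) : ℂ) := by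
    push_cast
    rfl
  rw [h2, Complex.norm_real, Real.norm_eq_abs]

end gd

section bog

variable {H : Type} [NormedAddCommGroup H] [InnerProductSpace ℂ H] [CompleteSpace H] {A : Type u} [CStarAlgebra A]
  {c : H →ₗ[ℂ] A} {U : H ≃ₗᵢ[ℂ] H} {α : A →⋆ₐ[ℂ] A} {E : Set ℕ} {f : ℕ → ℤ}

omit [CompleteSpace H] in
theorem car_is (h : CAR c) : IsCAR c := ⟨h.anticommute, h.relation⟩

theorem near (ξ : H) (h : SingularVector U ξ) : Near U ξ := Pool.Agent.N767.CB.S_SING_holds H U ξ h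

theorem quad_gd (hc : CAR c) (hα : ∀ ξ, α (c ξ) = c (U ξ)) (hf : ∀ n, |f n| ≤ 1) (hw : Wt E f) {x : A}
    (hx : x ∈ closure (Submodule.span ℂ (QuadraticSingular c U) : Set A)) : Gd α E f x := by
  have hc' := car_is hc
  have g1 : Gd α E f (1 : A) := slow_gd hf hw (fixed_slow (map_one α))
  have gc : ∀ ξ, Gd α E f (c ξ) := fun ξ => slow_gd hf hw (one_slow hc' hα ξ)
  have gcs : ∀ ξ, Gd α E f (star (c ξ)) := fun ξ => gd_star (gc ξ)
  -- products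
  have p1 : ∀ ξ ζ, SingularVector U ξ ∨ SingularVector U ζ → Gd α E f (c ξ * star (c ζ)) := by
    rintro ξ ζ (h | h)
    · exact slow_gd hf hw (two_slow hc' hα (near ξ h) ζ)
    · have := gd_star (slow_gd hf hw (two_slow hc' hα (near ζ h) ξ) : Gd α E f (c ζ * star (c ξ)))
      rwa [star_mul, star_star] at this
  have p2 : ∀ ξ ζ, SingularVector U ξ ∨ SingularVector U ζ → Gd α E f (c ξ * c ζ) := by
    rintro ξ ζ (h | h)
    · exact slow_gd hf hw (two_slow2 hc' hα (near ξ h) ζ)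
    · have h1 : Gd α E f (c ζ * c ξ) := slow_gd hf hw (two_slow2 hc' hα (near ζ h) ξ)
      have h2 : c ξ * c ζ = (-1 : ℂ) • (c ζ * c ξ) := by rw [hc'.ac, neg_smul, one_smul]
      rw [h2]
      exact Gd.closure (D := {c ζ * c ξ}) hf (by rintro _ rfl; exact h1)
        (subset_closure (Submodule.smul_mem _ _ (Submodule.subset_span rfl)))
  refine Gd.closure hf ?_ hx
  rintro x (rfl | ⟨ξ, rfl | rfl⟩ | ⟨ξ, ζ, a, b, hs, ha | ha, hb | hb, rfl⟩)
  · exact g1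
  · exact gc ξ
  · exact gcs ξ
  · rw [ha, hb]; exact p2 ξ ζ hs
  · rw [ha, hb]; exact p1 ξ ζ hs
  · rw [ha, hb]
    have h2 : star (c ξ) * c ζ = (inner ℂ ξ ζ : ℂ) • (1 : A) + (-1 : ℂ) • (c ζ * star (c ξ)) := by
      rw [← hc.relation, neg_smul, one_smul]
      abel
    rw [h2]
    refine Gd.closure (D := {1, c ζ * star (c ξ)}) hf ?_
      (subset_closure (Submodule.add_mem _ (Submodule.smul_mem _ _ (Submodule.subset_span (by simp)))
        (Submodule.smul_mem _ _ (Submodule.subset_span (by simp)))))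
    rintro y (rfl | rfl)
    · exact g1
    · exact p1 ζ ξ hs.symm
  · rw [ha, hb]
    have h1 := gd_star (p2 ζ ξ hs.symm)
    rwa [star_mul] at h1

theorem iter_norm (n : ℕ) (x : A) : ‖(α^[n]) x‖ ≤ ‖x‖ := by
  rw [← pow_iter]
  exact norm_pow_le' α n _

theorem quad_concl (hE : LogDensityZero E) (wm : Wt E mu) (wl : Wt E lam) (hmu : ∀ n, |mu n| ≤ 1)
    (hlam : ∀ n, |lam n| ≤ 1) (hc : CAR c) (hα : ∀ ξ, α (c ξ) = c (U ξ)) {x : A}
    (hx : x ∈ closure (Submodule.span ℂ (QuadraticSingular c U) : Set A)) :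
    Conclusion E (fun n => (α^[n]) x) := by
  have key : ∀ f : ℕ → ℤ, (∀ n, |f n| ≤ 1) → Wt E f → DisjointOutside E f (fun n => (α^[n]) x) := by
    intro f hf hw
    refine disj_of hE hf (fun n => iter_norm (α := α) n x) fun ε hε => ?_
    obtain ⟨N₀, h3⟩ := quad_gd hc hα hf hw hx ε hε
    refine ⟨N₀, fun N hN hNE θ => le_trans (le_of_eq ?_) (h3 N hN hNE θ)⟩
    congr 1
    refine sum_congr rfl fun m _ => ?_
    rw [pow_iter]
  exact concl_of (key mu hmu wm) (key lam hlam wl)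

theorem correlates [Nontrivial A] (hE : LogDensityZero E) (hf : ∀ n, |f n| ≤ 1) (hw : Wt E f)
    (hsq : ∃ N₀ : ℕ, ∀ N : ℕ, N₀ ≤ N → (N : ℝ) / 4 ≤ ∑ n ∈ Icc 1 N, (f n : ℝ) ^ 2)
    (hc : CAR c) (hα : ∀ ξ, α (c ξ) = c (U ξ)) {ξ : H} (hξ : ¬ SingularVector U ξ) :
    Correlates E f (fun n => (α^[n]) (c ξ * star (c ξ))) := by
  obtain ⟨κ, ρ, hκ, hρ, hre, N₀, hN₀⟩ := bog_fails.{u} Pool.Agent.N645.CB.state Pool.Agent.N424.CB.corr
    Pool.Agent.N273.CB.main hf (corr_small hf hw) (mean_small hf hw) hsq (car_is hc) hα hξ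
  obtain ⟨r, hr⟩ : ∃ r : ℕ → ℝ, r = fun n => (ρ ((α^[n]) (c ξ * star (c ξ)))).re := ⟨_, rfl⟩
  have hrρ : ∀ n, ρ ((α^[n]) (c ξ * star (c ξ))) = ((r n : ℝ) : ℂ) := fun n => by rw [hre n, hr]
  have hN₀' : ∀ N : ℕ, N₀ ≤ N → N ∉ E → κ * N ≤ ∑ n ∈ Icc 1 N, (f n : ℝ) * r n := by
    intro N hN hNE
    rw [hr]
    exact hN₀ N hN hNE
  have hb : ∀ n, |(f n : ℝ) * r n| ≤ ‖ρ‖ * ‖c ξ * star (c ξ)‖ := by
    intro n
    rw [abs_mul]
    have h1 : |(f n : ℝ)| ≤ 1 := by exact_mod_cast hf n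
    have h2 : |r n| ≤ ‖ρ‖ * ‖c ξ * star (c ξ)‖ := by
      have h3 : |r n| = ‖ρ ((α^[n]) (c ξ * star (c ξ)))‖ := by
        rw [hrρ, Complex.norm_real, Real.norm_eq_abs]
      rw [h3]
      exact (ρ.le_opNorm _).trans (mul_le_mul_of_nonneg_left (iter_norm (α := α) n _) (norm_nonneg _))
    calc |(f n : ℝ)| * |r n| ≤ 1 * (‖ρ‖ * ‖c ξ * star (c ξ)‖) := mul_le_mul h1 h2 (abs_nonneg _) zero_le_one
      _ = _ := one_mul _
  obtain ⟨N₁, hN₁⟩ := log_lower (E := E) (by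
    have := hE
    unfold LogDensityZero at this
    convert this using 5) hb hκ ⟨N₀, hN₀'⟩
  refine ⟨κ / 2, ρ, by positivity, hρ, ⟨max N₀ 1, fun N hN hNE => ?_⟩, max N₁ 2, fun N hN => ?_⟩
  · have h1 := hN₀' N (le_trans (le_max_left _ _) hN) hNE
    have hN1 : (0 : ℝ) < N := by exact_mod_cast lt_of_lt_of_le zero_lt_one (le_trans (le_max_right _ _) hN)
    have h2 : (1 / (N : ℂ)) * ∑ n ∈ Icc 1 N, (f n : ℂ) * ρ ((α^[n]) (c ξ * star (c ξ))) =
        ((1 / (N : ℝ) * ∑ n ∈ Icc 1 N, (f n : ℝ) * r n : ℝ) : ℂ) := by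
      push_cast
      congr 1
      refine sum_congr rfl fun n _ => ?_
      rw [hrρ]
    show κ / 2 ≤ ((1 / (N : ℂ)) * ∑ n ∈ Icc 1 N, (f n : ℂ) * ρ ((α^[n]) (c ξ * star (c ξ)))).re
    rw [h2, Complex.ofReal_re, one_div, inv_mul_eq_div, le_div_iff₀ hN1]
    nlinarith
  · have h1 := hN₁ N (le_trans (le_max_left _ _) hN)
    have hN1 : 1 < N := lt_of_lt_of_le (by norm_num) (le_trans (le_max_right _ _) hN)
    have hlog : 0 < Real.log N := Real.log_pos (by exact_mod_cast hN1)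
    have h2 : (1 / (Real.log N : ℂ)) * ∑ n ∈ Icc 1 N, (f n : ℂ) / n * ρ ((α^[n]) (c ξ * star (c ξ))) =
        ((1 / Real.log N * ∑ n ∈ Icc 1 N, (f n : ℝ) * r n / n : ℝ) : ℂ) := by
      push_cast
      congr 1
      refine sum_congr rfl fun n _ => ?_
      rw [hrρ]
      ring
    show κ / 2 ≤ ((1 / (Real.log N : ℂ)) * ∑ n ∈ Icc 1 N, (f n : ℂ) / n * ρ ((α^[n]) (c ξ * star (c ξ)))).re
    rw [h2, Complex.ofReal_re, one_div, inv_mul_eq_div, le_div_iff₀ hlog]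
    exact h1

end bog

/-- **Möbius disjointness for Bogoliubov automorphisms of the CAR algebra.** There is one set `E` of logarithmic
density zero such that the observables of degree at most two of every Bogoliubov automorphism `α`, `α(c(ξ)) = c(U ξ)`,
are disjoint from `μ` and `λ` in norm (at the scales outside `E`, and in logarithmic mean) as soon as the spectral
measures are singular; if the spectral measure of `ξ` is not singular, some state shows a correlation of `c(ξ) c(ξ)*`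
with `μ`, even in logarithmic mean. -/
theorem result : ∃ E : Set ℕ, LogDensityZero E ∧ Main.{u} E := by
  obtain ⟨E₁, hE₁, h1⟩ := Pool.Agent.Y842.PH.one_E (Pool.Agent.Y304.U.avc Pool.Agent.Y304.U.pw)
    Pool.Agent.TH823.MRS.mob Pool.Agent.TH823.MRS.mob_bdd Pool.Agent.TH823.MRS.mob_flip
    Pool.Agent.TH823.MRS.expo_mob
  obtain ⟨E₂, hE₂, h2⟩ := Pool.Agent.Y842.PH.one_E (Pool.Agent.Y304.U.avc Pool.Agent.Y304.U.pw)
    Pool.Agent.H376R2.MR.lam Pool.Agent.Y842.EL.abs_lam Pool.Agent.TH823.MRS.lam_flip Pool.Agent.TH823.MRS.expo_lam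
  have hE : LogDensityZero (E₁ ∪ E₂) := Pool.Agent.Y842.EL.LZ_union hE₁ hE₂
  have hmu : ∀ n, |mu n| ≤ 1 := fun n => ArithmeticFunction.abs_moebius_le_one
  have hlam : ∀ n, |lam n| ≤ 1 := fun n => by
    unfold lam
    rw [abs_pow, abs_neg, abs_one, one_pow]
  have w1 : Wt (E₁ ∪ E₂) mu := wt_of h1 Set.subset_union_left
  have w2 : Wt (E₁ ∪ E₂) lam := wt_of h2 Set.subset_union_right
  have hsm : ∃ N₀ : ℕ, ∀ N : ℕ, N₀ ≤ N → (N : ℝ) / 4 ≤ ∑ n ∈ Icc 1 N, (mu n : ℝ) ^ 2 :=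
    ⟨0, fun N _ => sqfree_lower N⟩
  have hsl : ∃ N₀ : ℕ, ∀ N : ℕ, N₀ ≤ N → (N : ℝ) / 4 ≤ ∑ n ∈ Icc 1 N, (lam n : ℝ) ^ 2 := by
    refine ⟨0, fun N _ => ?_⟩
    have h3 : ∀ n, (lam n : ℝ) ^ 2 = 1 := fun n => by
      unfold lam
      push_cast
      rw [← pow_mul, mul_comm, pow_mul]
      norm_num
    simp only [h3]
    rw [sum_const, Nat.card_Icc, nsmul_eq_mul, mul_one, Nat.add_sub_cancel]
    have : (0 : ℝ) ≤ N := Nat.cast_nonneg _
    linarith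
  refine ⟨E₁ ∪ E₂, hE, fun H _ _ _ A _ _ c U α hc hα => ?_⟩
  have hA : PartA (E₁ ∪ E₂) c U α := fun x hx => quad_concl hE w1 w2 hmu hlam hc hα hx
  have hB : PartB (E₁ ∪ E₂) c U α := fun ξ hξ =>
    ⟨correlates hE hmu w1 hsm hc hα hξ, correlates hE hlam w2 hsl hc hα hξ⟩
  refine ⟨hA, hB, ?_⟩
  tfae_have 1 → 2 := by
    intro h3 x hx
    refine hA x (closure_mono (Submodule.span_mono ?_) hx)
    rintro y (rfl | h | ⟨ξ, ζ, a, b, ha, hb, rfl⟩)
    · exact Or.inl rfl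
    · exact Or.inr (Or.inl h)
    · exact Or.inr (Or.inr ⟨ξ, ζ, a, b, Or.inl (h3 ξ), ha, hb, rfl⟩)
  tfae_have 2 → 3 := by
    intro h3 ξ ρ _
    have h4 := h3 (c ξ * star (c ξ)) (subset_closure (Submodule.subset_span
      (Or.inr (Or.inr ⟨ξ, ξ, _, _, Or.inl rfl, Or.inr rfl, rfl⟩))))
    exact (h4.2.2 ρ).2
  tfae_have 3 → 1 := by
    intro h3 ξ
    by_contra h4
    obtain ⟨κ, ρ, hκ, hρ, -, N₀, h5⟩ := (hB ξ h4).1
    have h6 := h3 ξ ρ hρ
    have h7 : Tendsto (fun N : ℕ => ((1 / (Real.log N : ℂ)) *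
        ∑ n ∈ Icc 1 N, (mu n : ℂ) / n * ρ ((α^[n]) (c ξ * star (c ξ)))).re) atTop (𝓝 0) := by
      have := (Complex.continuous_re.tendsto 0).comp h6
      rw [Complex.zero_re] at this
      exact this
    have h8 := ge_of_tendsto h7 (eventually_atTop.2 ⟨N₀, fun N hN => h5 N hN⟩)
    linarith
  tfae_finish

end Pool.Agent.Results.MP_7a8f48_an.Bogoliubov
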