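import Pool.Agent.N237.QF.Rel
import Pool.Agent.Helper188.NCM.QMAll

/-!
# Möbius disjointness of quasi-free endomorphisms under deformed commutation relations (helper237)

The positive definite kernel estimate `taskPD` and the conventions are taken from the starting files
`Pool.Agent.Helper188.NCM` and `Pool.Agent.H398R3.NCM`.
-/

set_option autoImplicit false

open Finset Filter Topology

namespace Pool.Agent.Results.MP_7a8f48_an.DeformedRelations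

/-- `e(x) = exp(2πix)` -/
noncomputable def e (x : ℝ) : ℂ := Complex.exp (2 * Real.pi * Complex.I * x)

/-- `‖∑ s(e_i) s(e_i)*‖ ≤ K` for all finite orthonormal families `(e_i)`. -/
def RowBounded {U H : Type} [CStarAlgebra U] [NormedAddCommGroup H] [InnerProductSpace ℂ H]
    (s : H →ₗ[ℂ] U) (K : ℝ) : Prop :=
  ∀ (d : ℕ) (v : Fin d → H), Orthonormal ℂ v → ‖∑ i, s (v i) * star (s (v i))‖ ≤ K

/-- Each `s(η)* s(ξ)` is in the closed span of `1` and the products `s(a) s(b)*`. -/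
def WickOrdered {U H : Type} [CStarAlgebra U] [NormedAddCommGroup H] [InnerProductSpace ℂ H]
    (s : H →ₗ[ℂ] U) : Prop :=
  ∀ η ξ : H, star (s η) * s ξ ∈
    (Submodule.span ℂ ({1} ∪ {x : U | ∃ a b : H, x = s a * star (s b)})).topologicalClosure

/-- The exponential sums of `h` are `o(N)`, uniformly. -/
def Orthogonal (h : ℕ → ℂ) : Prop := ∀ ε : ℝ, 0 < ε → ∃ N₀ : ℕ, ∀ N ≥ N₀, ∀ θ : ℝ,
  ‖∑ n ∈ range N, h n * e (θ * n)‖ ≤ ε * N

/-- The orbits of a dense set of elements `x` satisfy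
`‖∑_{n < N} c(n) αⁿ(x)‖ ≤ A_x sup_β |∑_{n < N} c(n) e(nβ)|` for all coefficients; and for all bounded
functions `h` with uniformly small exponential sums, and for the Möbius function, the averages of
`h(n) e(nθ) αⁿ(x)` tend to zero in norm, uniformly in `θ`, for all `x`. -/
def Disjoint {U : Type} [CStarAlgebra U] (α : U →⋆ₐ[ℂ] U) : Prop :=
  (∃ S : Submodule ℂ U, S.topologicalClosure = ⊤ ∧ ∀ x ∈ S, ∃ A : ℝ, ∀ (N : ℕ) (c : ℕ → ℂ) (C : ℝ),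
    (∀ β : ℝ, ‖∑ n ∈ range N, c n * e (β * n)‖ ≤ C) → ‖∑ n ∈ range N, c n • (α^[n]) x‖ ≤ A * C) ∧
  (∀ h : ℕ → ℂ, (∀ n, ‖h n‖ ≤ 1) → Orthogonal h → ∀ x : U, ∀ ε : ℝ, 0 < ε → ∃ N₀ : ℕ, ∀ N ≥ N₀,
    ∀ θ : ℝ, ‖∑ n ∈ range N, (h n * e (θ * n)) • (α^[n]) x‖ ≤ ε * N) ∧
  (∀ x : U, ∀ ε : ℝ, 0 < ε → ∃ N₀ : ℕ, ∀ N ≥ N₀, ∀ θ : ℝ,
    ‖∑ n ∈ Icc 1 N, (((ArithmeticFunction.moebius n : ℤ) : ℂ) * e (θ * n)) • (α^[n]) x‖ ≤ ε * N) ∧
  ∀ (x : U) (ρ : U →L[ℂ] ℂ), Tendsto (fun N : ℕ => (1 / (N : ℂ)) *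
    ∑ n ∈ Icc 1 N, ((ArithmeticFunction.moebius n : ℤ) : ℂ) * ρ ((α^[n]) x)) atTop (𝓝 0)

/-- `α` is disjoint together with each system `(W, γ)` which embeds in `(U, α)`. -/
def DisjointAll {U : Type} [CStarAlgebra U] (α : U →⋆ₐ[ℂ] U) : Prop :=
  Disjoint α ∧ ∀ (W : Type) [CStarAlgebra W] (γ : W →⋆ₐ[ℂ] W) (ι : W →⋆ₐ[ℂ] U),
    Function.Injective ι → (∀ w, ι (γ w) = α (ι w)) →
    (∀ h : ℕ → ℂ, (∀ n, ‖h n‖ ≤ 1) → Orthogonal h → ∀ x : W, ∀ ε : ℝ, 0 < ε → ∃ N₀ : ℕ, ∀ N ≥ N₀,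
      ∀ θ : ℝ, ‖∑ n ∈ range N, (h n * e (θ * n)) • (γ^[n]) x‖ ≤ ε * N) ∧
    (∀ x : W, ∀ ε : ℝ, 0 < ε → ∃ N₀ : ℕ, ∀ N ≥ N₀, ∀ θ : ℝ,
      ‖∑ n ∈ Icc 1 N, (((ArithmeticFunction.moebius n : ℤ) : ℂ) * e (θ * n)) • (γ^[n]) x‖ ≤ ε * N) ∧
    ∀ (x : W) (ρ : W →L[ℂ] ℂ), Tendsto (fun N : ℕ => (1 / (N : ℂ)) *
      ∑ n ∈ Icc 1 N, ((ArithmeticFunction.moebius n : ℤ) : ℂ) * ρ ((γ^[n]) x)) atTop (𝓝 0)

/-- `U` is generated by `s(H)` and a group `G` of unitaries which normalize `s(H)`. -/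
def Generated {U H : Type} [CStarAlgebra U] [NormedAddCommGroup H] [InnerProductSpace ℂ H]
    (s : H →ₗ[ℂ] U) (G : Subgroup (unitary U)) : Prop :=
  (∀ g ∈ G, ∀ ξ, ∃ ζ, (g : U) * s ξ * star (g : U) = s ζ) ∧
  (StarAlgebra.adjoin ℂ (Set.range s ∪ {x : U | ∃ g ∈ G, x = (g : U)})).topologicalClosure = ⊤

/-- `α` multiplies each element of `G` by a scalar of modulus one. -/
def Eigen {U : Type} [CStarAlgebra U] (G : Subgroup (unitary U)) (α : U →⋆ₐ[ℂ] U) : Prop :=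
  ∀ g ∈ G, ∃ c : ℂ, ‖c‖ = 1 ∧ α (g : U) = c • (g : U)

open Pool.Agent.Helper188.NCM Pool.Agent.N237.QF

theorem e_eq : e = ee := by
  funext x
  rfl

theorem icc_of_range {E : Type} [NormedAddCommGroup E] {f : ℝ → ℕ → E} (h0 : ∀ θ, f θ 0 = 0)
    (h1 : ∀ ε : ℝ, 0 < ε → ∃ N₀ : ℕ, ∀ N ≥ N₀, ∀ θ : ℝ, ‖∑ n ∈ range N, f θ n‖ ≤ ε * N)
    (B : ℝ) (hB : ∀ θ n, ‖f θ n‖ ≤ B) :
    ∀ ε : ℝ, 0 < ε → ∃ N₀ : ℕ, ∀ N ≥ N₀, ∀ θ : ℝ, ‖∑ n ∈ Icc 1 N, f θ n‖ ≤ ε * N := by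
  intro ε hε
  obtain ⟨N1, hN1⟩ := h1 (ε / 2) (by positivity)
  obtain ⟨N2, hN2⟩ := exists_nat_ge (2 * B / ε)
  refine ⟨max N1 N2, fun N hN θ => ?_⟩
  have e1 : ∑ n ∈ Icc 1 N, f θ n = ∑ n ∈ range N, f θ n + f θ N := by
    rw [← sum_range_succ, Finset.range_eq_Ico, Finset.sum_eq_sum_Ico_succ_bot (by omega), h0, zero_add]
    rfl
  rw [e1]
  refine (norm_add_le _ _).trans ?_
  have g1 := hN1 N ((le_max_left _ _).trans hN) θ
  have g2 : (N2 : ℝ) ≤ N := by exact_mod_cast (le_max_right _ _).trans hN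
  have g3 : B ≤ ε / 2 * N := by
    have := hN2.trans g2
    rw [div_le_iff₀ hε] at this
    linarith
  have := hB θ N
  linarith

theorem tendsto_of {W : Type} [CStarAlgebra W] (γ : W →⋆ₐ[ℂ] W) (x : W)
    (h : ∀ ε : ℝ, 0 < ε → ∃ N₀ : ℕ, ∀ N ≥ N₀, ∀ θ : ℝ,
      ‖∑ n ∈ Icc 1 N, (((ArithmeticFunction.moebius n : ℤ) : ℂ) * e (θ * n)) • (γ^[n]) x‖ ≤ ε * N)
    (ρ : W →L[ℂ] ℂ) : Tendsto (fun N : ℕ => (1 / (N : ℂ)) *
      ∑ n ∈ Icc 1 N, ((ArithmeticFunction.moebius n : ℤ) : ℂ) * ρ ((γ^[n]) x)) atTop (𝓝 0) := by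
  rw [Metric.tendsto_atTop]
  intro ε hε
  obtain ⟨N0, h0⟩ := h (ε / (2 * (‖ρ‖ + 1))) (by positivity)
  refine ⟨max N0 1, fun N hN => ?_⟩
  have hN1 : (0 : ℝ) < N := by exact_mod_cast (le_max_right _ _).trans hN
  have g := h0 N ((le_max_left _ _).trans hN) 0
  have e1 : ∑ n ∈ Icc 1 N, ((ArithmeticFunction.moebius n : ℤ) : ℂ) * ρ ((γ^[n]) x)
      = ρ (∑ n ∈ Icc 1 N, (((ArithmeticFunction.moebius n : ℤ) : ℂ) * e (0 * n)) • (γ^[n]) x) := by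
    rw [map_sum]
    refine Finset.sum_congr rfl fun n _ => ?_
    rw [map_smul, smul_eq_mul, zero_mul, e_eq, ee_zero, mul_one]
  rw [dist_zero_right, e1, norm_mul, norm_div, norm_one, Complex.norm_natCast]
  calc 1 / (N : ℝ) * ‖ρ (∑ n ∈ Icc 1 N, (((ArithmeticFunction.moebius n : ℤ) : ℂ) * e (0 * n)) •
        (γ^[n]) x)‖
      ≤ 1 / (N : ℝ) * (‖ρ‖ * (ε / (2 * (‖ρ‖ + 1)) * N)) := by
        gcongr
        exact (ρ.le_opNorm _).trans (mul_le_mul_of_nonneg_left g (norm_nonneg _))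
    _ = (‖ρ‖ / (‖ρ‖ + 1)) * (ε / 2) := by field_simp
    _ ≤ 1 * (ε / 2) := by
        gcongr
        rw [div_le_one (by positivity)]
        linarith
    _ < ε := by linarith

theorem orth_mob : Orth mob := by
  intro ε hε
  obtain ⟨N0, h0⟩ := qm_zero ε hε
  refine ⟨N0, fun N hN θ => ?_⟩
  refine le_trans (le_of_eq ?_) (h0 N hN θ)
  congr 1
  refine Finset.sum_congr rfl fun n _ => ?_
  congr 2
  ring

theorem mob_zero : mob 0 = 0 := by simp [mob]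

theorem norm_term {W : Type} [CStarAlgebra W] (γ : W →⋆ₐ[ℂ] W) (x : W) (θ : ℝ) (n : ℕ) :
    ‖(mob n * ee (θ * n)) • (γ^[n]) x‖ ≤ ‖x‖ := by
  rw [norm_smul, norm_mul, norm_ee, mul_one]
  calc ‖mob n‖ * ‖(γ^[n]) x‖ ≤ 1 * ‖x‖ := by
        gcongr
        · exact norm_mob_le n
        · exact norm_iter_le γ n x
    _ = ‖x‖ := one_mul _

theorem disjoint_of {U : Type} [CStarAlgebra U] {α : U →⋆ₐ[ℂ] U}
    (h : ∃ S : Submodule ℂ U, S.topologicalClosure = ⊤ ∧ ∀ x ∈ S, Tr α x) : DisjointAll α := by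
  obtain ⟨S, hS, hT⟩ := h
  have hU : ∀ h : ℕ → ℂ, (∀ n, ‖h n‖ ≤ 1) → Orthogonal h → ∀ x : U, UD h α x := by
    intro h hb ho x
    exact ud_closed hb α (fun y hy => (hT y hy).ud ho) x (by rw [hS]; trivial)
  have hM : ∀ x : U, ∀ ε : ℝ, 0 < ε → ∃ N₀ : ℕ, ∀ N ≥ N₀, ∀ θ : ℝ,
      ‖∑ n ∈ Icc 1 N, (((ArithmeticFunction.moebius n : ℤ) : ℂ) * e (θ * n)) • (α^[n]) x‖ ≤ ε * N := by
    intro x
    refine icc_of_range (f := fun θ n => (mob n * ee (θ * n)) • (α^[n]) x) (fun θ => ?_)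
      (hU mob norm_mob_le orth_mob x) ‖x‖ (norm_term α x)
    rw [mob_zero, zero_mul, zero_smul]
  refine ⟨⟨⟨S, hS, fun x hx => ?_⟩, hU, hM, fun x ρ => tendsto_of α x (hM x) ρ⟩, ?_⟩
  · obtain ⟨A, _, hA⟩ := hT x hx
    exact ⟨A, hA⟩
  · intro W _ γ ι hι hγ
    have hn : ∀ (n : ℕ) (w : W), ι ((γ^[n]) w) = (α^[n]) (ι w) := by
      intro n w
      induction n with
      | zero => rfl
      | succ n ih => rw [Function.iterate_succ_apply', Function.iterate_succ_apply', hγ, ih]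
    have hW : ∀ h : ℕ → ℂ, (∀ n, ‖h n‖ ≤ 1) → Orthogonal h → ∀ x : W, UD h γ x := by
      intro h hb ho x ε hε
      obtain ⟨N0, h0⟩ := hU h hb ho (ι x) ε hε
      refine ⟨N0, fun N hN θ => le_trans (le_of_eq ?_) (h0 N hN θ)⟩
      rw [← NonUnitalStarAlgHom.norm_map ι hι, map_sum]
      congr 1
      exact Finset.sum_congr rfl fun n _ => by rw [map_smul, hn]
    have hMW : ∀ x : W, ∀ ε : ℝ, 0 < ε → ∃ N₀ : ℕ, ∀ N ≥ N₀, ∀ θ : ℝ,
        ‖∑ n ∈ Icc 1 N, (((ArithmeticFunction.moebius n : ℤ) : ℂ) * e (θ * n)) • (γ^[n]) x‖ ≤ ε * N := by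
      intro x
      refine icc_of_range (f := fun θ n => (mob n * ee (θ * n)) • (γ^[n]) x) (fun θ => ?_)
        (hW mob norm_mob_le orth_mob x) ‖x‖ (norm_term γ x)
      rw [mob_zero, zero_mul, zero_smul]
    exact ⟨hW, hMW, fun x ρ => tendsto_of γ x (hMW x) ρ⟩

theorem disjoint_subsingleton {U : Type} [CStarAlgebra U] [Subsingleton U] (α : U →⋆ₐ[ℂ] U) :
    DisjointAll α := by
  refine disjoint_of ⟨⊤, ?_, fun x _ => ?_⟩
  · exact top_le_iff.1 (Submodule.le_topologicalClosure _)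
  · rw [Subsingleton.elim x 0]
    exact Tr.zero α

/-- **Möbius disjointness of quasi-free endomorphisms under deformed commutation relations.**
(A) Row-bounded Wick ordered families; (B) the `q`-commutation relations, `-1 < q < 1`; (C) mixed
commutation relations `s_i* s_j = δ_ij + q_ij s_j s_i*`, `sup |q_ij| < 1`. -/
theorem result (U H : Type) [CStarAlgebra U] [NormedAddCommGroup H] [InnerProductSpace ℂ H]
    (G : Subgroup (unitary U)) (α : U →⋆ₐ[ℂ] U) (hE : Eigen G α) :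
    (∀ (s : H →ₗ[ℂ] U) (K : ℝ), RowBounded s K → WickOrdered s → Generated s G →
      ∀ V : H → H, (∀ η ξ, (inner ℂ (V η) (V ξ) : ℂ) = inner ℂ η ξ) → (∀ ξ, α (s ξ) = s (V ξ)) →
      DisjointAll α) ∧
    (∀ (s : H →ₗ[ℂ] U) (q : ℝ), |q| < 1 →
      (∀ η ξ : H, star (s η) * s ξ = (inner ℂ η ξ : ℂ) • (1 : U) + q • (s ξ * star (s η))) →
      Generated s G → (∀ ξ, ∃ ζ, α (s ξ) = s ζ) → DisjointAll α) ∧
    (∀ (s : H →L[ℂ] U) (I : Type) (v : I → H) (Q : I → I → ℂ) (q : ℝ), Orthonormal ℂ v →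
      (Submodule.span ℂ (Set.range v)).topologicalClosure = ⊤ → q < 1 → (∀ i j, ‖Q i j‖ ≤ q) →
      (∀ i j : I, star (s (v i)) * s (v j) = (inner ℂ (v i) (v j) : ℂ) • (1 : U)
        + Q i j • (s (v j) * star (s (v i)))) →
      Generated (s : H →ₗ[ℂ] U) G →
      ∀ V : H → H, (∀ η ξ, (inner ℂ (V η) (V ξ) : ℂ) = inner ℂ η ξ) → (∀ ξ, α (s ξ) = s (V ξ)) →
      DisjointAll α) := by
  have hA : ∀ (s : H →ₗ[ℂ] U) (K : ℝ), RowBounded s K → WickOrdered s → Generated s G →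
      ∀ V : H → H, (∀ η ξ, (inner ℂ (V η) (V ξ) : ℂ) = inner ℂ η ξ) → (∀ ξ, α (s ξ) = s (V ξ)) →
      DisjointAll α := by
    intro s K hr hw hg V hV hα
    have hr' : Pool.Agent.N237.QF.RowBounded s (max K 1) := fun d v hv =>
      (hr d v hv).trans (le_max_left _ _)
    exact disjoint_of (main s (lt_of_lt_of_le one_pos (le_max_right _ _)) hr' hw G hg.1 hg.2 α V hV hα hE)
  refine ⟨hA, ?_, ?_⟩
  · intro s q hq hrel hg hα
    rcases subsingleton_or_nontrivial U with hU | hU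
    · exact disjoint_subsingleton α
    have hR : QRel s q := hrel
    choose V hV using hα
    refine hA s (1 - |q|)⁻¹ (hR.row hq) hR.wick hg V (fun η ξ => ?_) hV
    have h1 := hrel (V η) (V ξ)
    have h2 := congrArg α (hrel η ξ)
    rw [map_mul, map_star, map_add, map_smul, map_one, ← Complex.coe_smul, map_smul, map_mul, map_star,
      Complex.coe_smul, hV, hV, h1] at h2
    exact smul_left_injective ℂ (one_ne_zero : (1 : U) ≠ 0) (add_right_cancel h2)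
  · intro s I v Q q hv hd hq hQ hrel hg V hV hα
    rcases isEmpty_or_nonempty I with hI | ⟨⟨i0⟩⟩
    · have hz : ∀ ξ : H, ξ = 0 := by
        intro ξ
        have h1 : ξ ∈ (Submodule.span ℂ (Set.range v)).topologicalClosure := by rw [hd]; trivial
        rw [Set.range_eq_empty, Submodule.span_empty] at h1
        have h2 : (⊥ : Submodule ℂ H).topologicalClosure = ⊥ :=
          IsClosed.submodule_topologicalClosure_eq (by simp)
        rw [h2] at h1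
        exact (Submodule.mem_bot ℂ).1 h1
      refine hA (s : H →ₗ[ℂ] U) 0 ?_ ?_ hg V hV hα
      · intro d w hw
        have : ∀ i, (s : H →ₗ[ℂ] U) (w i) = 0 := fun i => by rw [hz (w i), map_zero]
        simp [this]
      · intro η ξ
        rw [hz ξ, map_zero, mul_zero]
        exact Submodule.zero_mem _
    · have hq0 : 0 ≤ q := (norm_nonneg _).trans (hQ i0 i0)
      have hM : MixedRel v s Q := hrel
      exact hA (s : H →ₗ[ℂ] U) (1 - q)⁻¹ (hM.row hv hd hq0 hq hQ) (hM.wick hd) hg V hV hα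

end Pool.Agent.Results.MP_7a8f48_an.DeformedRelations
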