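import Pool.Agent.N213.CM.Main
import Pool.Agent.N213.CM.Stm2
import Pool.Agent.N213.CM.Core
import Pool.Agent.N213.CM.Rig
import Pool.Agent.N213.CM.Gad
import Pool.Agent.N213.CM.Per
import Pool.Agent.N213.CM.Hyp
import Pool.Agent.N213.CM.Words
import Pool.Agent.N213.CM.Alpha
import Pool.Agent.N213.CM.AlphaG
import Pool.Agent.N213.CM.Cst
import Pool.Agent.N213.CM.CstG

/-! # Möbius disjointness of skew products of C*-algebras over generalized Morse sequences -/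

set_option autoImplicit false

namespace Pool.Agent.Results.MP_7a8f48_an.MorseSkewProducts

open Finset Filter Topology

/-- a Cantor scale: `L 0 = 1` and all quotients `L (j + 1) / L j` are integers `≥ 2` -/
def Scale (L : ℕ → ℕ) : Prop := L 0 = 1 ∧ ∀ j, ∃ l, 2 ≤ l ∧ L (j + 1) = l * L j

/-- `g` is additive on the digits for the scale `L` (a generalized Morse sequence with values in
`ZMod r`) -/
def DigitAdditive {r : ℕ} (L : ℕ → ℕ) (g : ℕ → ZMod r) : Prop :=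
  ∀ j l h, l < L j → g (l + L j * h) = g l + g (L j * h)

/-- the quotients are bounded, or there are infinitely many pairs of levels `s ≤ t` such that, for
every coset `{v | j v = c}` of a proper subgroup of `ZMod r`, a proportion at least `δ` of the
increments of `g` along the multiples of `L s` below `L t` is outside of the coset -/
def Admissible {r : ℕ} (L : ℕ → ℕ) (g : ℕ → ZMod r) : Prop :=
  (∃ K : ℕ, ∀ t, L (t + 1) ≤ K * L t) ∨
  ∃ δ : ℝ, 0 < δ ∧ ∀ T : ℕ, ∃ s t, T ≤ s ∧ s ≤ t ∧ ∀ j : ZMod r, j ≠ 0 → ∀ c : ZMod r,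
    δ * (L t / L s : ℕ) ≤ (((range (L t / L s - 1)).filter (fun z =>
      j * (g (L s * (z + 1)) - g (L s * z)) ≠ c)).card : ℝ)

/-- the two-sided subshift of the differences of `g`: every finite piece of its points occurs
arbitrarily far to the right in the sequence `g (n + 1) - g n` -/
abbrev Y {r : ℕ} (g : ℕ → ZMod r) : Set (ℤ → ZMod r) := Pool.Agent.N213.CM.Y g

theorem mem_Y {r : ℕ} (g : ℕ → ZMod r) (y : ℤ → ZMod r) : y ∈ Y g ↔
    ∀ H : ℕ, ∃ c : ℕ, H ≤ c ∧ ∀ i : ℤ, |i| ≤ H → y i = g ((c + i).toNat + 1) - g (c + i).toNat :=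
  Iff.rfl

/-- the shift by one -/
def S {r : ℕ} (g : ℕ → ZMod r) : Y g → Y g := Pool.Agent.N213.CM.S g 1

theorem S_apply {r : ℕ} (g : ℕ → ZMod r) (y : Y g) (i : ℤ) : (S g y).1 i = y.1 (i + 1) := rfl

/-- the eigenvectors of `γ` span a dense subspace -/
def DiscreteSpectrum {A : Type} [CStarAlgebra A] (γ : A ≃⋆ₐ[ℂ] A) : Prop :=
  ∀ (a : A) (ε : ℝ), 0 < ε → ∃ b ∈ Submodule.span ℂ {v : A | ∃ l : ℂ, γ v = l • v}, ‖a - b‖ < ε

/-- the Möbius function -/
def mu (n : ℕ) : ℂ := ((ArithmeticFunction.moebius n : ℤ) : ℂ)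

/-- `e(x) = exp(2 π i x)` -/
noncomputable def e (x : ℝ) : ℂ := Complex.exp (2 * Real.pi * Complex.I * x)

/-- the averages of `μ(n) e(nβ) αⁿ(b)` tend to `0` in norm, uniformly in `β` -/
def NormDisjoint {B : Type} [CStarAlgebra B] (α : B → B) : Prop :=
  ∀ (b : B) (ε : ℝ), 0 < ε → ∃ N₀ : ℕ, ∀ N : ℕ, N₀ ≤ N → ∀ β : ℝ,
    ‖(1 / (N : ℂ)) • ∑ n ∈ Ioc 0 N, (mu n * e (n * β)) • (α^[n] b)‖ ≤ ε

/-- the averages of `μ(n) ρ(αⁿ(b))` tend to `0` for all bounded functionals `ρ` -/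
def MoebiusDisjoint {B : Type} [CStarAlgebra B] (α : B → B) : Prop :=
  ∀ (ρ : B →L[ℂ] ℂ) (b : B),
    Tendsto (fun N : ℕ => (1 / (N : ℂ)) * ∑ n ∈ Ioc 0 N, mu n * ρ (α^[n] b)) atTop (𝓝 0)

theorem NormDisjoint.moebiusDisjoint {B : Type} [CStarAlgebra B] {α : B → B}
    (main : NormDisjoint α) : MoebiusDisjoint α := by
  intro ρ F
  rw [Metric.tendsto_atTop]
  intro ε hε
  obtain ⟨N₀, h0⟩ := main F (ε / (2 * (‖ρ‖ + 1))) (by positivity)
  refine ⟨N₀, fun N hN => ?_⟩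
  have h1 := h0 N hN 0
  rw [dist_zero_right]
  have e : (1 / (N : ℂ)) * ∑ n ∈ Ioc 0 N, mu n * ρ (α^[n] F) =
      ρ ((1 / (N : ℂ)) • ∑ n ∈ Ioc 0 N, (mu n * e ((n : ℝ) * 0)) • (α^[n] F)) := by
    rw [map_smul, smul_eq_mul, map_sum]
    congr 1
    refine sum_congr rfl fun n _ => ?_
    rw [map_smul, smul_eq_mul]
    simp [e]
  rw [e]
  refine lt_of_le_of_lt (ρ.le_opNorm _) ?_
  calc ‖ρ‖ * _ ≤ ‖ρ‖ * (ε / (2 * (‖ρ‖ + 1))) := mul_le_mul_of_nonneg_left h1 (norm_nonneg _)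
    _ ≤ (‖ρ‖ + 1) * (ε / (2 * (‖ρ‖ + 1))) := by
        apply mul_le_mul_of_nonneg_right _ (by positivity)
        linarith
    _ = ε / 2 := by field_simp
    _ < ε := by linarith

/-- the formula `(α F)(x) = γ θ^{k(x)} F(T x)` defines a `*`-automorphism `α` of `C(X, A)`, and its
averages along the Möbius function tend to `0` -/
def SkewDisjoint (X : Type) [TopologicalSpace X] [CompactSpace X] (T : X → X) (k : X → ℕ) {A : Type}
    [CStarAlgebra A] (θ γ : A ≃⋆ₐ[ℂ] A) : Prop :=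
  ∃ α : C(X, A) ≃⋆ₐ[ℂ] C(X, A), (∀ (F : C(X, A)) (x : X), α F x = γ ((⇑θ)^[k x] (F (T x)))) ∧
    NormDisjoint α ∧ MoebiusDisjoint α

theorem result (r : ℕ) [NeZero r] (L : ℕ → ℕ) (hL : Scale L) (g : ℕ → ZMod r)
    (hg : DigitAdditive L g) (hb : Admissible L g) (A : Type) [CStarAlgebra A] (θ γ : A ≃⋆ₐ[ℂ] A)
    (hθ : ∀ a, (⇑θ)^[r] a = a) (hθγ : ∀ a, θ (γ a) = γ (θ a)) (hγ : DiscreteSpectrum γ) :
    SkewDisjoint (Y g) (S g) (fun y => (y.1 0).val) θ γ := by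
  have hSc : Pool.Agent.N213.BM.Sc L := ⟨hL.1, hL.2⟩
  have hmul : ∀ j : ZMod r, Pool.Agent.N213.CM.Dig L (fun n => j * g n) := by
    intro j k l h hl
    show j * g (l + L k * h) = j * g l + j * g (L k * h)
    rw [hg k l h hl, mul_add]
  have hyp : ∀ j : ZMod r, Pool.Agent.N213.CM.Hyp L (fun n => j * g n) := by
    intro j
    rcases hb with hb | ⟨δ, hδ, hb⟩
    · exact Pool.Agent.N213.CM.hypm r L _ hSc (hmul j) hb
    · by_cases hj : j = 0
      · left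
        refine ⟨0, fun t _ d _ => ?_⟩
        simp [hj]
      · right
        refine ⟨δ, hδ, fun T => ?_⟩
        obtain ⟨s, t, h1, h2, h3⟩ := hb T
        refine ⟨s, t, h1, h2, fun c => ?_⟩
        have := h3 j hj c
        simp only [mul_sub] at this
        exact this
  have huni : Pool.Agent.N213.CM.Uni g :=
    Pool.Agent.N213.CM.wordsm (Pool.Agent.N213.CM.mainm Pool.Agent.N213.CM.perm
      (Pool.Agent.N213.CM.rigm Pool.Agent.N213.CM.corem) Pool.Agent.N213.CM.gadm) r L g hSc hg hyp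
  obtain ⟨α, hα⟩ := Pool.Agent.N213.CM.alphag Pool.Agent.N213.CM.alpha r g A θ γ hθ
  have key := Pool.Agent.N213.CM.cstg Pool.Agent.N213.CM.cst Pool.Agent.N213.CM.alpha r g huni A θ γ
    hθ hθγ hγ α hα
  have main : NormDisjoint (⇑α) := by
    intro F ε hε
    obtain ⟨N₀, h0⟩ := key F ε hε
    refine ⟨max N₀ 1, fun N hN β => ?_⟩
    have hN1 : 1 ≤ N := (le_max_right _ _).trans hN
    have hNpos : (0 : ℝ) < N := by exact_mod_cast hN1
    have h1 := h0 N ((le_max_left _ _).trans hN) β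
    rw [norm_smul, norm_div, norm_one, Complex.norm_natCast, one_div, inv_mul_le_iff₀ hNpos,
      mul_comm (N : ℝ) ε]
    exact h1
  exact ⟨α, hα, main, main.moebiusDisjoint⟩

end Pool.Agent.Results.MP_7a8f48_an.MorseSkewProducts
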