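import Pool.Agent.N237.MD.Rank
import Pool.Agent.Y842.PH.Tri
import Pool.Agent.Y304.U.Avc
import Pool.Agent.Y304.U.Pw
import Pool.Agent.Y842.EL.One

/-!
# Möbius disjointness in norm, at almost all scales, for endomorphisms of C*-algebras whose orbits have small rank
relative to the almost periodic subalgebra, or sublinear approximation rank (helper237)
-/

set_option autoImplicit false

open Filter Topology Finset

namespace Pool.Agent.Results.MP_7a8f48_an.RelativeRank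

universe u v

open Classical in
/-- `E` has logarithmic density zero -/
def LogDensityZero (E : Set ℕ) : Prop := Tendsto
  (fun X : ℕ => (∑ n ∈ Icc 1 X, if n ∈ E then (1 : ℝ) / n else 0) / Real.log X) atTop (𝓝 0)

/-- the Möbius function -/
def mu (n : ℕ) : ℤ := ArithmeticFunction.moebius n

/-- the Liouville function -/
def lam (n : ℕ) : ℤ := (-1) ^ ArithmeticFunction.cardFactors n

/-! ### the conclusion -/

section concl

variable {X : Type v} [NormedAddCommGroup X] [NormedSpace ℂ X]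

/-- the sum of `h m e(mθ) y m` over the `m` in `S`, where `e(t) = exp (2 π i t)` -/
noncomputable def twistedSum (h : ℕ → ℤ) (θ : ℝ) (S : Finset ℕ) (y : ℕ → X) : X :=
  ∑ m ∈ S, ((h m : ℂ) * Complex.exp (2 * Real.pi * Complex.I * m * θ)) • y m

/-- The sequence `y` is disjoint from `h`, uniformly in the twist: (1) for the long averages up to `N`, `N` outside
`E`, and (2) in logarithmic mean, for all `N`. -/
def DisjointOutside (E : Set ℕ) (h : ℕ → ℤ) (y : ℕ → X) : Prop :=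
  ∀ ε : ℝ, 0 < ε →
    (∃ N0 : ℕ, ∀ N ≥ N0, N ∉ E → ∀ θ : ℝ, ‖twistedSum h θ (Icc 1 N) y‖ ≤ ε * N) ∧
    ∃ N0 : ℕ, ∀ N ≥ N0, ∀ θ : ℝ,
      ‖twistedSum h θ (Icc 1 N) (fun m => (1 / (m : ℂ)) • y m)‖ ≤ ε * Real.log N

/-- the conclusion for an orbit `y`: it is disjoint in norm from the Möbius and the Liouville function, so that for
all bounded functionals `ρ` (for example states)
`(1/N) ∑_{n ≤ N} μ(n) ρ(y n) → 0` as `N → ∞` outside `E` and `(1/log N) ∑_{n ≤ N} μ(n) ρ(y n) / n → 0`. -/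
def Conclusion (E : Set ℕ) (y : ℕ → X) : Prop :=
  DisjointOutside E mu y ∧ DisjointOutside E lam y ∧
  ∀ ρ : X →L[ℂ] ℂ,
    Tendsto (fun N : ℕ => (1 / (N : ℂ)) * ∑ n ∈ Icc 1 N, (mu n : ℂ) * ρ (y n)) (atTop ⊓ 𝓟 Eᶜ) (𝓝 0) ∧
    Tendsto (fun N : ℕ => (1 / (Real.log N : ℂ)) * ∑ n ∈ Icc 1 N, (mu n : ℂ) / n * ρ (y n)) atTop (𝓝 0)

end concl

/-! ### slow vectors -/

section slow

variable {X : Type u} [NormedAddCommGroup X] [NormedSpace ℂ X]

/-- The vector `x` is slow for `T`: for each `η > 0` there are `L ≥ 1` and vectors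
`c 0, …, c (L - 1)` of a Hilbert space with `∑ ‖c h‖² ≤ (η L)²` such that
`‖∑ v h Tʰ x‖ ≤ ‖∑ v h c h‖ + η L` for all coefficients with `|v h| ≤ 1`. -/
def Slow (T : X → X) (x : X) : Prop := ∀ η : ℝ, 0 < η → ∃ L : ℕ, 1 ≤ L ∧
  ∃ (E : Type) (_ : NormedAddCommGroup E) (_ : InnerProductSpace ℂ E) (c : ℕ → E),
    ∑ h ∈ range L, ‖c h‖ ^ 2 ≤ (η * L) ^ 2 ∧
    ∀ v : ℕ → ℂ, (∀ h, ‖v h‖ ≤ 1) →
      ‖∑ h ∈ range L, v h • (T^[h]) x‖ ≤ ‖∑ h ∈ range L, v h • c h‖ + η * L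

/-- The normed space `F` is `M_k` with the operator norm, up to linear isometric isomorphism. -/
def IsMatrixAlgebra (F : Type) [NormedAddCommGroup F] [NormedSpace ℂ F] (k : ℕ) : Prop :=
  Nonempty (F ≃ₗᵢ[ℂ] (EuclideanSpace ℂ (Fin k) →L[ℂ] EuclideanSpace ℂ (Fin k)))

/-- The approximation rank of the orbit of `x` is sublinear: for each `ε > 0` there are `n ≥ 1`, `k ≤ ε n` and linear
contractions `φ : X → M_k`, `ψ : M_k → Y` such that the mean of `‖ψ (φ a) - π a‖` over the `a = Tʰ(x)`, `0 ≤ h < n`,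
is at most `ε`. This holds if `liminf (1/n) rcp({x, T x, …, Tⁿ⁻¹ x}, δ) = 0` for each `δ > 0`. -/
def Sublinear {Y : Type v} [NormedAddCommGroup Y] [NormedSpace ℂ Y] (π : X → Y) (T : X → X) (x : X) : Prop :=
  ∀ ε : ℝ, 0 < ε → ∃ n : ℕ, 1 ≤ n ∧ ∃ k : ℕ, (k : ℝ) ≤ ε * n ∧
    ∃ (F : Type) (_ : NormedAddCommGroup F) (_ : NormedSpace ℂ F) (φ : X →ₗ[ℂ] F) (ψ : F →ₗ[ℂ] Y),
      IsMatrixAlgebra F k ∧ (∀ a, ‖φ a‖ ≤ ‖a‖) ∧ (∀ b, ‖ψ b‖ ≤ ‖b‖) ∧
      ∑ h ∈ range n, ‖ψ (φ ((T^[h]) x)) - π ((T^[h]) x)‖ ≤ ε * n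

end slow

/-! ### rank relative to the almost periodic subalgebra -/

section defs

variable {A : Type u} [CStarAlgebra A]

/-- eigenvectors of `α`, with an eigenvalue of modulus one -/
def Eigenvector (α : A →⋆ₐ[ℂ] A) (c : A) : Prop := ∃ l : ℂ, ‖l‖ = 1 ∧ α c = l • c

/-- the almost periodic elements: limits of polynomials in eigenvectors -/
def AlmostPeriodic (α : A →⋆ₐ[ℂ] A) (p : A) : Prop :=
  p ∈ closure (Algebra.adjoin ℂ {c : A | Eigenvector α c} : Set A)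

/-- The orbit of `x` has small rank relative to the almost periodic subalgebra `P`: for each `η > 0` there are `L ≥ 1`,
elements `w_1, …, w_k` and coefficients `p_{j,h}` in `P` with `‖∑ w_j* w_j‖ ‖∑_{h < L} ∑_j p_{j,h} p_{j,h}*‖ ≤ (η L)²`
such that the mean of `‖αʰ(x) - ∑_j p_{j,h} w_j‖` over `h < L` is at most `η`. -/
def RelativelySlow (α : A →⋆ₐ[ℂ] A) (x : A) : Prop :=
  ∀ η : ℝ, 0 < η → ∃ (L k : ℕ) (w : Fin k → A) (p : Fin k → ℕ → A), 1 ≤ L ∧ (∀ j h, AlmostPeriodic α (p j h)) ∧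
    ‖∑ j, star (w j) * w j‖ * ‖∑ h ∈ range L, ∑ j, p j h * star (p j h)‖ ≤ (η * L) ^ 2 ∧
    ∑ h ∈ range L, ‖(α ^ h) x - ∑ j, p j h * w j‖ ≤ η * L

/-- The element `x` is compact relative to the almost periodic subalgebra `P`: for each `ε > 0` there are `w_1, …, w_k`
and `M` such that each `αʰ(x)` is within `ε` of a combination `∑ p_j w_j` with `p_j` in `P` and `‖∑ p_j p_j*‖ ≤ M`. -/
def RelativelyCompact (α : A →⋆ₐ[ℂ] A) (x : A) : Prop :=
  ∀ ε : ℝ, 0 < ε → ∃ (k : ℕ) (w : Fin k → A) (M : ℝ), ∀ h : ℕ, ∃ p : Fin k → A,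
    (∀ j, AlmostPeriodic α (p j)) ∧ ‖∑ j, p j * star (p j)‖ ≤ M ∧ ‖(α ^ h) x - ∑ j, p j * w j‖ ≤ ε

/-- the products `c y b`, where `c` and `b` are eigenvectors (for example `1`) and `y` or `y*` is relatively slow, and
the slow elements -/
def Good (α : A →⋆ₐ[ℂ] A) : Set A :=
  {x | ∃ c y b : A, Eigenvector α c ∧ Eigenvector α b ∧ (RelativelySlow α y ∨ RelativelySlow α (star y)) ∧
    x = c * y * b} ∪ {x | Slow α x}

end defs

/-- (A) All endomorphisms `γ` of C*-algebras `W` (unital or not) which embed equivariantly in a system `(A, α)` satisfy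
the conclusion, for the elements in the closed span of the good elements of `α`. -/
def PartA (E : Set ℕ) : Prop :=
  ∀ (A : Type u) [CStarAlgebra A] (α : A →⋆ₐ[ℂ] A) (W : Type v) [NonUnitalCStarAlgebra W] (γ : W →⋆ₙₐ[ℂ] W)
    (κ : W →⋆ₙₐ[ℂ] A), Function.Injective κ → (∀ x, κ (γ x) = α (κ x)) →
    ∀ x : W, κ x ∈ closure (Submodule.span ℂ (Good α) : Set A) → Conclusion E (fun n => (γ^[n]) x)

/-- (B) linear contractions of normed spaces -/
def PartB (E : Set ℕ) : Prop :=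
  ∀ (X : Type u) [NormedAddCommGroup X] [NormedSpace ℂ X] (T : X →L[ℂ] X), ‖T‖ ≤ 1 →
    ∀ x ∈ closure (Submodule.span ℂ {x : X | Slow T x} : Set X), Conclusion E (fun n => (T^[n]) x)

/-- (C) sufficient conditions -/
def PartC : Prop :=
  (∀ (A : Type u) [CStarAlgebra A] (α : A →⋆ₐ[ℂ] A) (x : A), RelativelyCompact α x → RelativelySlow α x) ∧
  ∀ (A : Type u) [NonUnitalCStarAlgebra A] (B : Type v) [NonUnitalCStarAlgebra B] (π : A →⋆ₙₐ[ℂ] B)
    (α : A →⋆ₙₐ[ℂ] A), Function.Injective π → ∀ x : A, Sublinear π α x → Slow α x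

open Pool.Agent.R296.SM Pool.Agent.N237.MD

theorem disj_of {X : Type v} [NormedAddCommGroup X] [NormedSpace ℂ X] {E : Set ℕ} (hE : LDZ E) {f : ℕ → ℤ}
    (hf : ∀ n, |f n| ≤ 1) {y : ℕ → X} {M : ℝ} (hM : ∀ n, ‖y n‖ ≤ M)
    (hy : ∀ ε : ℝ, 0 < ε → ∃ N₀ : ℕ, ∀ N : ℕ, N₀ ≤ N → N ∉ E → ∀ θ : UnitAddCircle,
      ‖∑ m ∈ Icc 1 N, tws f θ m • y m‖ ≤ ε * N) : DisjointOutside E f y := by
  have hlong : ∀ ε : ℝ, 0 < ε → ∃ N0 : ℕ, ∀ N ≥ N0, N ∉ E → ∀ θ : ℝ,
      ‖twistedSum f θ (Icc 1 N) y‖ ≤ ε * N := by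
    intro ε hε
    obtain ⟨N₀, h1⟩ := hy ε hε
    refine ⟨N₀, fun N hN hNE θ => ?_⟩
    refine le_trans (le_of_eq ?_) (h1 N hN hNE (θ : UnitAddCircle))
    congr 1
    unfold twistedSum
    refine sum_congr rfl fun m _ => ?_
    rw [exp_fourier]
    rfl
  intro ε hε
  refine ⟨hlong ε hε, ?_⟩
  obtain ⟨N₀, h3⟩ := logmean hE (M := M)
    (𝓕 := {a : ℕ → X | ∃ θ : ℝ, a = fun m => ((f m : ℂ) * Complex.exp (2 * Real.pi * Complex.I * m * θ)) • y m})
    (by
      rintro _ ⟨θ, rfl⟩ n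
      rw [norm_smul, exp_fourier]
      calc _ ≤ 1 * M := mul_le_mul (norm_tws hf (θ : UnitAddCircle) n) (hM n) (norm_nonneg _) zero_le_one
        _ = M := one_mul _)
    (by
      intro ε hε
      obtain ⟨N₀, h4⟩ := hlong ε hε
      refine ⟨N₀, ?_⟩
      rintro N hN hNE _ ⟨θ, rfl⟩
      exact h4 N hN hNE θ) ε hε
  refine ⟨N₀, fun N hN θ => ?_⟩
  refine le_trans (le_of_eq ?_) (h3 N hN _ ⟨θ, rfl⟩)
  unfold twistedSum
  congr 1
  exact sum_congr rfl fun m _ => smul_comm _ _ _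

theorem concl_of {E : Set ℕ} {X : Type v} [NormedAddCommGroup X] [NormedSpace ℂ X] {y : ℕ → X}
    (h1 : DisjointOutside E mu y) (h2 : DisjointOutside E lam y) : Conclusion E y := by
  refine ⟨h1, h2, fun ρ => ⟨?_, ?_⟩⟩
  · rw [Metric.tendsto_nhds]
    intro ε hε
    obtain ⟨N₀, h3⟩ := (h1 (ε / (2 * (‖ρ‖ + 1))) (by positivity)).1
    rw [eventually_inf_principal]
    filter_upwards [eventually_ge_atTop (max N₀ 1)] with N hN hNE
    have h4 := h3 N (le_trans (le_max_left _ _) hN) hNE 0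
    unfold twistedSum at h4
    have hN1 : (1 : ℝ) ≤ N := by exact_mod_cast le_trans (le_max_right _ _) hN
    simp only [Complex.ofReal_zero, mul_zero, Complex.exp_zero, mul_one] at h4
    rw [dist_zero_right]
    have e : ∑ n ∈ Icc 1 N, (mu n : ℂ) * ρ (y n) = ρ (∑ n ∈ Icc 1 N, (mu n : ℂ) • y n) := by
      rw [map_sum]
      exact Finset.sum_congr rfl fun n _ => by rw [map_smul, smul_eq_mul]
    rw [e, norm_mul, norm_div, norm_one, Complex.norm_natCast]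
    calc 1 / (N : ℝ) * ‖ρ (∑ n ∈ Icc 1 N, (mu n : ℂ) • y n)‖
        ≤ 1 / (N : ℝ) * (‖ρ‖ * (ε / (2 * (‖ρ‖ + 1)) * N)) := by
          gcongr
          exact (ρ.le_opNorm _).trans (mul_le_mul_of_nonneg_left h4 (norm_nonneg _))
      _ = ε / 2 * (‖ρ‖ / (‖ρ‖ + 1)) := by field_simp
      _ ≤ ε / 2 * 1 := by
          gcongr
          rw [div_le_one (by positivity)]
          linarith
      _ < ε := by linarith
  · rw [Metric.tendsto_atTop]
    intro ε hε
    obtain ⟨N₀, h3⟩ := (h1 (ε / (2 * (‖ρ‖ + 1))) (by positivity)).2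
    refine ⟨max N₀ 2, fun N hN => ?_⟩
    have h4 := h3 N (le_trans (le_max_left _ _) hN) 0
    unfold twistedSum at h4
    have hlog : 0 < Real.log N := Real.log_pos (by exact_mod_cast (by omega : 1 < N))
    simp only [Complex.ofReal_zero, mul_zero, Complex.exp_zero, mul_one] at h4
    rw [dist_zero_right]
    have e : ∑ n ∈ Icc 1 N, (mu n : ℂ) / n * ρ (y n) =
        ρ (∑ n ∈ Icc 1 N, (mu n : ℂ) • (1 / (n : ℂ)) • y n) := by
      rw [map_sum]
      exact Finset.sum_congr rfl fun n _ => by rw [map_smul, map_smul, smul_eq_mul, smul_eq_mul]; ring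
    rw [e, norm_mul, norm_div, norm_one, Complex.norm_real, Real.norm_eq_abs, abs_of_pos hlog]
    calc 1 / Real.log N * ‖ρ (∑ n ∈ Icc 1 N, (mu n : ℂ) • (1 / (n : ℂ)) • y n)‖
        ≤ 1 / Real.log N * (‖ρ‖ * (ε / (2 * (‖ρ‖ + 1)) * Real.log N)) := by
          gcongr
          exact (ρ.le_opNorm _).trans (mul_le_mul_of_nonneg_left h4 (norm_nonneg _))
      _ = ε / 2 * (‖ρ‖ / (‖ρ‖ + 1)) := by field_simp
      _ ≤ ε / 2 * 1 := by
          gcongr
          rw [div_le_one (by positivity)]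
          linarith
      _ < ε := by linarith

theorem wt_of {E F : Set ℕ} {f : ℕ → ℤ} (h : ∀ h : ℕ, 1 ≤ h → ∀ ε : ℝ, 0 < ε → ∃ N₀ : ℕ, ∀ N : ℕ, N₀ ≤ N →
    N ∉ E → ∀ α : ℝ, ‖Pool.Agent.Y842.PH.Cr f h N α‖ ≤ ε * N) (hEF : E ⊆ F) : Wt F f := by
  intro k hk ε hε
  obtain ⟨N₀, h1⟩ := h k hk ε hε
  refine ⟨N₀, fun N hN hNE l hl => ?_⟩
  obtain ⟨t, ht⟩ := (Complex.norm_eq_one_iff l).1 hl
  have h2 := h1 N hN (fun h3 => hNE (hEF h3)) (t / (2 * Real.pi))
  refine le_trans (le_of_eq ?_) h2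
  congr 1
  unfold Pool.Agent.Y842.PH.Cr
  refine sum_congr rfl fun n _ => ?_
  congr 1
  unfold Pool.Agent.Helper602.MK.ee
  rw [← ht, ← Complex.exp_nat_mul]
  congr 1
  push_cast
  have : (Real.pi : ℂ) ≠ 0 := by exact_mod_cast Real.pi_ne_zero
  field_simp

/-- a *-endomorphism as a linear contraction -/
noncomputable def toL {A : Type u} [NonUnitalCStarAlgebra A] (α : A →⋆ₙₐ[ℂ] A) : A →L[ℂ] A :=
  LinearMap.mkContinuous ({ toFun := α, map_add' := map_add α, map_smul' := map_smul α } : A →ₗ[ℂ] A) 1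
    (fun a => by rw [one_mul]; exact NonUnitalStarAlgHom.norm_apply_le α a)

theorem toL_le {A : Type u} [NonUnitalCStarAlgebra A] (α : A →⋆ₙₐ[ℂ] A) : ‖toL α‖ ≤ 1 :=
  LinearMap.mkContinuous_norm_le _ zero_le_one _

/-- a unital *-endomorphism as a linear contraction -/
noncomputable def toL1 {A : Type u} [CStarAlgebra A] (α : A →⋆ₐ[ℂ] A) : A →L[ℂ] A :=
  LinearMap.mkContinuous ({ toFun := α, map_add' := map_add α, map_smul' := map_smul α } : A →ₗ[ℂ] A) 1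
    (fun a => by rw [one_mul]; exact NonUnitalStarAlgHom.norm_apply_le α a)

theorem toL1_le {A : Type u} [CStarAlgebra A] (α : A →⋆ₐ[ℂ] A) : ‖toL1 α‖ ≤ 1 :=
  LinearMap.mkContinuous_norm_le _ zero_le_one _

theorem toL1_coe {A : Type u} [CStarAlgebra A] (α : A →⋆ₐ[ℂ] A) : (⇑(toL1 α) : A → A) = ⇑α := rfl

theorem pow_iter {A : Type u} [CStarAlgebra A] (α : A →⋆ₐ[ℂ] A) (m : ℕ) (x : A) : (α ^ m) x = (⇑α)^[m] x := by
  induction m with
  | zero => rfl
  | succ m ih =>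
    rw [Function.iterate_succ_apply', ← ih, pow_succ']
    rfl

theorem good_gd {A : Type u} [CStarAlgebra A] {α : A →⋆ₐ[ℂ] A} {E : Set ℕ} {f : ℕ → ℤ} (hf : ∀ n, |f n| ≤ 1)
    (hw : Wt E f) {x : A} (hx : x ∈ closure (Submodule.span ℂ (Good α) : Set A)) : Gd α E f x := by
  refine Gd.closure hf ?_ hx
  have hrel : ∀ y : A, RelativelySlow α y → Gd α E f y := fun y hy => relSlow_gd hf hw hy
  rintro x (⟨c, y, b, hc, hb, hy, rfl⟩ | hx)
  · refine gd_eig ?_ hc hb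
    rcases hy with hy | hy
    · exact hrel y hy
    · have := gd_star (hrel _ hy)
      rwa [star_star] at this
  · have h1 : SlowV (⇑α) x := hx
    have hfun : (⇑(toL1 α) : A → A) = ⇑α := toL1_coe α
    rw [← hfun] at h1
    have h2 : GdT (⇑(toL1 α)) E f x := slowV_gd hf hw (toL1_le α) h1
    intro ε hε
    obtain ⟨N₀, h3⟩ := h2 ε hε
    refine ⟨N₀, fun N hN hNE θ => le_trans (le_of_eq ?_) (h3 N hN hNE θ)⟩
    congr 1
    refine sum_congr rfl fun m _ => ?_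
    rw [hfun, pow_iter]

/-- **Möbius disjointness in norm, at almost all scales, for orbits of small rank relative to the almost periodic
subalgebra, and for orbits of sublinear approximation rank.** There is one set `E` of logarithmic density zero which
works for all *-endomorphisms of C*-algebras (A) and for all linear contractions of normed spaces (B). -/
theorem result : ∃ E : Set ℕ, LogDensityZero E ∧ PartA.{u, v} E ∧ PartB.{u} E ∧ PartC.{u, v} := by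
  obtain ⟨E₁, hE₁, h1⟩ := Pool.Agent.Y842.PH.one_E (Pool.Agent.Y304.U.avc Pool.Agent.Y304.U.pw)
    Pool.Agent.TH823.MRS.mob Pool.Agent.TH823.MRS.mob_bdd Pool.Agent.TH823.MRS.mob_flip
    Pool.Agent.TH823.MRS.expo_mob
  obtain ⟨E₂, hE₂, h2⟩ := Pool.Agent.Y842.PH.one_E (Pool.Agent.Y304.U.avc Pool.Agent.Y304.U.pw)
    Pool.Agent.H376R2.MR.lam Pool.Agent.Y842.EL.abs_lam Pool.Agent.TH823.MRS.lam_flip Pool.Agent.TH823.MRS.expo_lam
  have hE : LogDensityZero (E₁ ∪ E₂) := Pool.Agent.Y842.EL.LZ_union hE₁ hE₂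
  have hmu : ∀ n, |mu n| ≤ 1 := fun n => ArithmeticFunction.abs_moebius_le_one
  have hlam : ∀ n, |lam n| ≤ 1 := fun n => by
    unfold lam
    rw [abs_pow, abs_neg, abs_one, one_pow]
  have w1 : Wt (E₁ ∪ E₂) mu := wt_of h1 Set.subset_union_left
  have w2 : Wt (E₁ ∪ E₂) lam := wt_of h2 Set.subset_union_right
  refine ⟨E₁ ∪ E₂, hE, ?_, ?_, ?_, ?_⟩
  · intro A _ α W _ γ κ hi hκ x hx
    have hpow : ∀ n : ℕ, κ ((γ^[n]) x) = (α ^ n) (κ x) := by
      intro n
      induction n with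
      | zero => rfl
      | succ n ih =>
        rw [Function.iterate_succ_apply', hκ, ih, pow_succ']
        rfl
    have hnorm : ∀ n : ℕ, ‖(γ^[n]) x‖ ≤ ‖x‖ := by
      intro n
      rw [← NonUnitalStarAlgHom.norm_map κ hi, hpow, ← NonUnitalStarAlgHom.norm_map κ hi x]
      exact norm_pow_le' α n _
    have key : ∀ f : ℕ → ℤ, (∀ n, |f n| ≤ 1) → Wt (E₁ ∪ E₂) f →
        DisjointOutside (E₁ ∪ E₂) f (fun n => (γ^[n]) x) := by
      intro f hf hw
      refine disj_of hE hf hnorm fun ε hε => ?_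
      obtain ⟨N₀, h3⟩ := good_gd hf hw hx ε hε
      refine ⟨N₀, fun N hN hNE θ => le_trans (le_of_eq ?_) (h3 N hN hNE θ)⟩
      rw [← NonUnitalStarAlgHom.norm_map κ hi, map_sum]
      congr 1
      refine sum_congr rfl fun m _ => ?_
      rw [map_smul, hpow]
    exact concl_of (key mu hmu w1) (key lam hlam w2)
  · intro X _ _ T hT x hx
    have key : ∀ f : ℕ → ℤ, (∀ n, |f n| ≤ 1) → Wt (E₁ ∪ E₂) f →
        DisjointOutside (E₁ ∪ E₂) f (fun n => (T^[n]) x) := by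
      intro f hf hw
      refine disj_of hE hf (fun n => it_le hT n x) ?_
      exact GdT.closure hf hT (fun y hy => slowV_gd hf hw hT hy) hx
    exact concl_of (key mu hmu w1) (key lam hlam w2)
  · intro A _ α x hx
    exact RelCompact.slow (α := α) hx
  · intro A _ B _ π α hπ x hx
    set p : A →L[ℂ] B := LinearMap.mkContinuous
      ({ toFun := π, map_add' := map_add π, map_smul' := map_smul π } : A →ₗ[ℂ] B) 1 (fun a => by
        rw [one_mul]
        exact NonUnitalStarAlgHom.norm_apply_le π a) with hpd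
    have hp : ∀ a, ‖p a‖ = ‖a‖ := fun a => NonUnitalStarAlgHom.norm_map π hπ a
    refine slow_of_rank (toL α) (toL_le α) p hp x fun ε hε => ?_
    obtain ⟨n, hn, k, hk, F, iF, iF', φ, ψ, ⟨e⟩, hφ, hψ, happ⟩ := hx ε hε
    refine ⟨n, hn, k, hk,
      LinearMap.mkContinuous ((e.toLinearEquiv : F →ₗ[ℂ] _).comp φ) 1 (fun a => ?_),
      LinearMap.mkContinuous (ψ.comp (e.symm.toLinearEquiv : _ →ₗ[ℂ] F)) 1 (fun b => ?_),
      LinearMap.mkContinuous_norm_le _ zero_le_one _, LinearMap.mkContinuous_norm_le _ zero_le_one _, ?_⟩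
    · rw [one_mul]
      exact (e.norm_map (φ a)).le.trans (hφ a)
    · rw [one_mul]
      exact (hψ _).trans (e.symm.norm_map b).le
    · refine le_trans (le_of_eq ?_) happ
      refine sum_congr rfl fun h _ => ?_
      show ‖ψ (e.symm (e (φ ((α^[h]) x)))) - π ((α^[h]) x)‖ = _
      rw [LinearIsometryEquiv.symm_apply_apply]

end Pool.Agent.Results.MP_7a8f48_an.RelativeRank
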